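import Pool.Agent.Helper39.HR.Stmts

/-!
# HR, module 2: the minimiser of the quadratic energy on the cube
-/

namespace Pool.Agent.Helper31.HR

open Finset Pool.Agent.Helper39.HR
open scoped Classical

noncomputable section

variable {V : Type} [Fintype V]

/-- the energy -/
def en (ω : V → V → ℝ) (μ : V → ℝ) (l : ℝ) (g : V → ℝ) : ℝ :=
  (∑ x, ∑ y, ω x y * (g x * g y + (1 - g x) * (1 - g y))) +
    l * ∑ x, μ x * (g x ^ 2 + (1 - g x) ^ 2)

/-- its gradient -/
def gr (ω : V → V → ℝ) (μ : V → ℝ) (l : ℝ) (g : V → ℝ) (x : V) : ℝ :=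
  2 * (∑ y, ω x y * (2 * g y - 1)) + l * (μ x * (4 * g x - 2))

theorem en_add (ω : V → V → ℝ) (μ : V → ℝ) (l : ℝ) (g η : V → ℝ)
    (hs : ∀ x y, ω x y = ω y x) :
    en ω μ l (fun x => g x + η x) =
      en ω μ l g + (∑ x, η x * gr ω μ l g x) + 2 * qf ω η + 2 * (l * ∑ x, μ x * η x ^ 2) := by
  have h1 : (∑ x, ∑ y, ω x y * ((g x + η x) * (g y + η y) +
        (1 - (g x + η x)) * (1 - (g y + η y)))) =
      (∑ x, ∑ y, ω x y * (g x * g y + (1 - g x) * (1 - g y))) +
        (∑ x, ∑ y, ω x y * (η x * (2 * g y - 1))) +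
        (∑ x, ∑ y, ω x y * (η y * (2 * g x - 1))) +
        2 * (∑ x, ∑ y, ω x y * (η x * η y)) := by
    rw [Finset.mul_sum, ← Finset.sum_add_distrib, ← Finset.sum_add_distrib,
      ← Finset.sum_add_distrib]
    refine Finset.sum_congr rfl fun x _ => ?_
    rw [Finset.mul_sum, ← Finset.sum_add_distrib, ← Finset.sum_add_distrib,
      ← Finset.sum_add_distrib]
    refine Finset.sum_congr rfl fun y _ => ?_
    ring
  have h2 : (∑ x, ∑ y, ω x y * (η y * (2 * g x - 1))) =
      ∑ x, ∑ y, ω x y * (η x * (2 * g y - 1)) := by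
    rw [Finset.sum_comm]
    refine Finset.sum_congr rfl fun x _ => Finset.sum_congr rfl fun y _ => ?_
    rw [hs y x]
  have h3 : (∑ x, μ x * ((g x + η x) ^ 2 + (1 - (g x + η x)) ^ 2)) =
      (∑ x, μ x * (g x ^ 2 + (1 - g x) ^ 2)) + (∑ x, η x * (μ x * (4 * g x - 2))) +
        2 * ∑ x, μ x * η x ^ 2 := by
    rw [Finset.mul_sum, ← Finset.sum_add_distrib, ← Finset.sum_add_distrib]
    refine Finset.sum_congr rfl fun x _ => ?_
    ring
  have h4 : (∑ x, η x * gr ω μ l g x) =
      2 * (∑ x, ∑ y, ω x y * (η x * (2 * g y - 1))) +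
        l * ∑ x, η x * (μ x * (4 * g x - 2)) := by
    rw [Finset.mul_sum, Finset.mul_sum, ← Finset.sum_add_distrib]
    refine Finset.sum_congr rfl fun x _ => ?_
    have : (∑ y, ω x y * (η x * (2 * g y - 1))) = η x * ∑ y, ω x y * (2 * g y - 1) := by
      rw [Finset.mul_sum]
      refine Finset.sum_congr rfl fun y _ => ?_
      ring
    rw [this, gr]
    ring
  unfold en qf
  rw [h1, h2, h3, h4]
  ring

theorem en_single (ω : V → V → ℝ) (μ : V → ℝ) (l : ℝ) (g : V → ℝ)
    (hs : ∀ x y, ω x y = ω y x) (hd : ∀ x, ω x x = 0) (x : V) (t : ℝ) :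
    en ω μ l (fun z => g z + if z = x then t else 0) =
      en ω μ l g + t * gr ω μ l g x + 2 * (l * (μ x * t ^ 2)) := by
  rw [en_add ω μ l g (fun z => if z = x then t else 0) hs]
  have h1 : (∑ z, (if z = x then t else 0) * gr ω μ l g z) = t * gr ω μ l g x := by
    rw [Finset.sum_eq_single x]
    · simp
    · intro b _ hb
      simp [hb]
    · intro h
      exact absurd (Finset.mem_univ x) h
  have h2 : qf ω (fun z => if z = x then t else 0) = 0 := by
    unfold qf
    refine Finset.sum_eq_zero fun a _ => Finset.sum_eq_zero fun b _ => ?_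
    by_cases ha : a = x
    · by_cases hb : b = x
      · subst ha
        subst hb
        rw [hd]
        ring
      · simp [hb]
    · simp [ha]
  have h3 : (∑ z, μ z * (if z = x then t else 0) ^ 2) = μ x * t ^ 2 := by
    rw [Finset.sum_eq_single x]
    · simp
    · intro b _ hb
      simp [hb]
    · intro h
      exact absurd (Finset.mem_univ x) h
  rw [h1, h2, h3]
  ring

theorem lin_aux (a b c : ℝ) (hc : 0 < c) (hb : 0 ≤ b)
    (h : ∀ t, 0 < t → t ≤ c → a * t ≤ b * t ^ 2) : a ≤ 0 := by
  by_contra hcon
  push Not at hcon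
  by_cases hb0 : b = 0
  · have := h c hc le_rfl
    rw [hb0] at this
    nlinarith [mul_pos hcon hc]
  · have hb1 : 0 < b := lt_of_le_of_ne hb (Ne.symm hb0)
    have ht0 : 0 < min c (a / (2 * b)) := lt_min hc (by positivity)
    have h1 := h (min c (a / (2 * b))) ht0 (min_le_left _ _)
    have h2 : min c (a / (2 * b)) ≤ a / (2 * b) := min_le_right _ _
    set t := min c (a / (2 * b)) with htdef
    have h3 : b * t ≤ a / 2 := by
      have := mul_le_mul_of_nonneg_left h2 hb
      calc b * t ≤ b * (a / (2 * b)) := this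
        _ = a / 2 := by field_simp
    have h4 : a * t ≤ a / 2 * t := by
      calc a * t ≤ b * t ^ 2 := h1
        _ = (b * t) * t := by ring
        _ ≤ a / 2 * t := mul_le_mul_of_nonneg_right h3 ht0.le
    nlinarith [mul_pos hcon ht0]

theorem st_min : ST_MIN := by
  intro V _ ω μ l hK hl
  have hμ : ∀ x, 0 ≤ μ x := fun x =>
    le_trans (Finset.sum_nonneg fun y _ => hK.nn x y) (hK.row x)
  have hcomp : IsCompact (Set.Icc (0 : V → ℝ) 1) := isCompact_Icc
  have hne : (Set.Icc (0 : V → ℝ) 1).Nonempty := ⟨0, le_rfl, fun x => zero_le_one⟩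
  have hcont : ContinuousOn (en ω μ l) (Set.Icc (0 : V → ℝ) 1) := by
    apply Continuous.continuousOn
    unfold en
    fun_prop
  obtain ⟨g, hg, hmin⟩ := hcomp.exists_isMinOn hne hcont
  have h0 : ∀ x, 0 ≤ g x := fun x => hg.1 x
  have h1 : ∀ x, g x ≤ 1 := fun x => hg.2 x
  have hmin' : ∀ f : V → ℝ, (∀ x, 0 ≤ f x) → (∀ x, f x ≤ 1) → en ω μ l g ≤ en ω μ l f := by
    intro f hf0 hf1
    exact hmin (show f ∈ Set.Icc (0 : V → ℝ) 1 from ⟨fun x => hf0 x, fun x => hf1 x⟩)
  refine ⟨g, h0, h1, ?_, ?_, ?_⟩
  · intro x hx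
    have hle : gr ω μ l g x ≤ 0 := by
      refine lin_aux _ (2 * (l * μ x)) (g x) hx (by have := hμ x; positivity) ?_
      intro t ht0 ht1
      have hh := hmin' (fun z => g z + if z = x then -t else 0) (by
        intro z
        by_cases hz : z = x
        · subst hz
          simp only [if_true]
          linarith
        · simp only [hz, if_false, add_zero]
          exact h0 z) (by
        intro z
        by_cases hz : z = x
        · subst hz
          simp only [if_true]
          have := h1 z
          linarith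
        · simp only [hz, if_false, add_zero]
          exact h1 z)
      rw [en_single ω μ l g hK.symm hK.dg x (-t)] at hh
      nlinarith [hh]
    unfold gr at hle
    have hs : (∑ y, ω x y * (2 * g y - 1)) = 2 * (∑ y, ω x y * g y) - ∑ y, ω x y := by
      rw [Finset.mul_sum, ← Finset.sum_sub_distrib]
      refine Finset.sum_congr rfl fun y _ => ?_
      ring
    rw [hs] at hle
    have hr := hK.row x
    nlinarith [hle, hr]
  · intro x hx
    have hle : -gr ω μ l g x ≤ 0 := by
      refine lin_aux _ (2 * (l * μ x)) (1 - g x) (by linarith) (by have := hμ x; positivity) ?_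
      intro t ht0 ht1
      have hh := hmin' (fun z => g z + if z = x then t else 0) (by
        intro z
        by_cases hz : z = x
        · subst hz
          simp only [if_true]
          have := h0 z
          linarith
        · simp only [hz, if_false, add_zero]
          exact h0 z) (by
        intro z
        by_cases hz : z = x
        · subst hz
          simp only [if_true]
          linarith
        · simp only [hz, if_false, add_zero]
          exact h1 z)
      rw [en_single ω μ l g hK.symm hK.dg x t] at hh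
      nlinarith [hh]
    unfold gr at hle
    have hs : (∑ y, ω x y * (2 * g y - 1)) = (∑ y, ω x y) - 2 * (∑ y, ω x y * (1 - g y)) := by
      rw [Finset.mul_sum, ← Finset.sum_sub_distrib]
      refine Finset.sum_congr rfl fun y _ => ?_
      ring
    rw [hs] at hle
    have hr := hK.row x
    nlinarith [hle, hr]
  · intro η hη0 hη1
    have hp := hmin' (fun x => g x + η x) (by
      intro x
      have := abs_le.mp (hη0 x)
      linarith) (by
      intro x
      have := abs_le.mp (hη1 x)
      linarith)
    have hm := hmin' (fun x => g x + -η x) (by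
      intro x
      have := abs_le.mp (hη0 x)
      linarith) (by
      intro x
      have := abs_le.mp (hη1 x)
      linarith)
    rw [en_add ω μ l g η hK.symm] at hp
    rw [en_add ω μ l g (fun x => -η x) hK.symm] at hm
    have e1 : (∑ x, -η x * gr ω μ l g x) = -∑ x, η x * gr ω μ l g x := by
      rw [← Finset.sum_neg_distrib]
      refine Finset.sum_congr rfl fun x _ => ?_
      ring
    have e2 : qf ω (fun x => -η x) = qf ω η := by
      unfold qf
      refine Finset.sum_congr rfl fun x _ => Finset.sum_congr rfl fun y _ => ?_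
      ring
    have e3 : (∑ x, μ x * (-η x) ^ 2) = ∑ x, μ x * η x ^ 2 := by
      refine Finset.sum_congr rfl fun x _ => ?_
      ring
    rw [e1, e2, e3] at hm
    linarith

end

end Pool.Agent.Helper31.HR
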